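import Mathlib

/-!
# A maximal sum-free set of 28 elements in `Z_2 ^ 8`

The 28 elements of the list `L` below, read as vectors of binary digits, form a maximal sum-free
subset of `Z_2 ^ 8`. As `28 < 29 = 2 ^ 4 + 2 ^ 4 - 3`, the proposed formula for the smallest size of
a maximal sum-free set in `Z_2 ^ r` fails for `r = 8`.
-/

namespace Pool.Agent.Results.MP_6cbd0e_co.SmallMaximalSumFree

/-- the elementary abelian group `Z_2 ^ r` -/
abbrev G (r : ℕ) : Type := Fin r → ZMod 2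

/-- no `a, b, c ∈ A` satisfy `a + b = c` -/
def SumFree {r : ℕ} (A : Finset (G r)) : Prop := ∀ a ∈ A, ∀ b ∈ A, a + b ∉ A

/-- a sum-free set to which no element can be added -/
def MaxSumFree {r : ℕ} (A : Finset (G r)) : Prop :=
  SumFree A ∧ ∀ g : G r, g ∉ A → ¬ SumFree (insert g A)

/-- the set of the sizes of the maximal sum-free sets in `Z_2 ^ r` -/
def sizes (r : ℕ) : Set ℕ := {n | ∃ A : Finset (G r), MaxSumFree A ∧ A.card = n}

/-- `M_i (Z_2 ^ r) = s`: the number `s` is the `i`-th largest element of `sizes r` (`i ≥ 1`) -/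
def IsNthLargest (r i s : ℕ) : Prop := s ∈ sizes r ∧ {m | m ∈ sizes r ∧ s < m}.ncard + 1 = i

/-- the vector of the binary digits -/
def vec (x : ℕ) : G 8 := fun i => if x.testBit i then 1 else 0

/-- the 28 elements, as natural numbers -/
def L : List ℕ := [20, 58, 107, 138, 52, 195, 132, 188, 24, 113, 57, 94, 159, 248, 17, 38, 208, 65,
  1, 214, 104, 191, 22, 217, 118, 231, 183, 128]

theorem vec_xor (x y : ℕ) : vec (x ^^^ y) = vec x + vec y := by
  funext i
  simp only [vec, Pi.add_apply, Nat.testBit_xor]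
  cases x.testBit i <;> cases y.testBit i <;> decide

theorem vec_inj {x y : ℕ} (hx : x < 256) (hy : y < 256) (h : vec x = vec y) : x = y := by
  apply Nat.eq_of_testBit_eq
  intro i
  rcases lt_or_ge i 8 with hi | hi
  · have := congrFun h ⟨i, hi⟩
    simp only [vec] at this
    cases h1 : x.testBit i <;> cases h2 : y.testBit i <;> simp_all
  · rw [Nat.testBit_lt_two_pow (lt_of_lt_of_le hx (Nat.pow_le_pow_right (n := 2) (by norm_num) hi)),
      Nat.testBit_lt_two_pow (lt_of_lt_of_le hy (Nat.pow_le_pow_right (n := 2) (by norm_num) hi))]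

theorem vec_surj (v : G 8) : ∃ x < 256, vec x = v := by
  have hcard : Fintype.card (Fin 256) = Fintype.card (G 8) := by simp [G]
  have hinj : Function.Injective fun x : Fin 256 => vec x := by
    intro x y h
    exact Fin.ext (vec_inj x.2 y.2 h)
  obtain ⟨x, hx⟩ := ((Fintype.bijective_iff_injective_and_card _).2 ⟨hinj, hcard⟩).2 v
  exact ⟨x, x.2, hx⟩

theorem L_lt : ∀ x ∈ L, x < 256 := by decide

theorem L_sumFree : ∀ x ∈ L, ∀ y ∈ L, x ^^^ y ∉ L := by decide +kernel

theorem L_max : ∀ z < 256, z ∉ L → z = 0 ∨ ∃ x ∈ L, ∃ y ∈ L, x ^^^ y = z := by decide +kernel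

/-- the set -/
def A : Finset (G 8) := L.toFinset.image vec

theorem mem_A {z : ℕ} (hz : z < 256) : vec z ∈ A ↔ z ∈ L := by
  simp only [A, Finset.mem_image, List.mem_toFinset]
  constructor
  · rintro ⟨x, hx, h⟩
    rwa [← vec_inj (L_lt x hx) hz h]
  · intro h
    exact ⟨z, h, rfl⟩

theorem xor_lt {x y : ℕ} (hx : x < 256) (hy : y < 256) : x ^^^ y < 256 := by
  exact Nat.xor_lt_two_pow (n := 8) hx hy

theorem A_sumFree : SumFree A := by
  intro a ha b hb hab
  simp only [A, Finset.mem_image, List.mem_toFinset] at ha hb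
  obtain ⟨x, hx, rfl⟩ := ha
  obtain ⟨y, hy, rfl⟩ := hb
  rw [← vec_xor, mem_A (xor_lt (L_lt x hx) (L_lt y hy))] at hab
  exact L_sumFree x hx y hy hab

theorem A_max : MaxSumFree A := by
  refine ⟨A_sumFree, ?_⟩
  intro g hg hs
  obtain ⟨z, hz, rfl⟩ := vec_surj g
  rw [mem_A hz] at hg
  rcases L_max z hz hg with rfl | ⟨x, hx, y, hy, hxy⟩
  · have h0 : vec 0 + vec 0 = vec 0 := by rw [← vec_xor, Nat.xor_self]
    exact hs (vec 0) (Finset.mem_insert_self _ _) (vec 0) (Finset.mem_insert_self _ _)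
      (by rw [h0]; exact Finset.mem_insert_self _ _)
  · have hx' : vec x ∈ insert (vec z) A :=
      Finset.mem_insert_of_mem ((mem_A (L_lt x hx)).2 hx)
    have hy' : vec y ∈ insert (vec z) A :=
      Finset.mem_insert_of_mem ((mem_A (L_lt y hy)).2 hy)
    refine hs _ hx' _ hy' ?_
    rw [← vec_xor, hxy]
    exact Finset.mem_insert_self _ _

theorem A_card : A.card = 28 := by
  unfold A
  rw [Finset.card_image_of_injOn]
  · decide
  · intro x hx y hy h
    rw [Finset.mem_coe, List.mem_toFinset] at hx hy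
    exact vec_inj (L_lt x hx) (L_lt y hy) h

/-- **A maximal sum-free set of 28 elements in `Z_2 ^ 8`.** It disproves the conjecture that for
every `r ≥ 4` the `i`-th largest size of a maximal sum-free set in `Z_2 ^ r` is
`2 ^ (r - 2) + 2 ^ (r - 2 - i)` for `2 ≤ i ≤ r - 2` and the smallest size is
`2 ^ ⌈r / 2⌉ + 2 ^ ⌊r / 2⌋ - 3`. -/
theorem result :
    (∃ A : Finset (G 8), MaxSumFree A ∧ A.card = 28) ∧
    (¬ IsLeast (sizes 8) (2 ^ 4 + 2 ^ 4 - 3)) ∧
    ¬ ∀ r : ℕ, 4 ≤ r →
      (∀ i : ℕ, 2 ≤ i → i ≤ r - 2 → IsNthLargest r i (2 ^ (r - 2) + 2 ^ (r - 2 - i))) ∧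
      IsLeast (sizes r) (2 ^ ((r + 1) / 2) + 2 ^ (r / 2) - 3) := by
  have h28 : 28 ∈ sizes 8 := ⟨A, A_max, A_card⟩
  have hno : ¬ IsLeast (sizes 8) (2 ^ 4 + 2 ^ 4 - 3) := by
    intro h
    have := h.2 h28
    norm_num at this
  refine ⟨⟨A, A_max, A_card⟩, hno, ?_⟩
  intro h
  exact hno (h 8 (by norm_num)).2

end Pool.Agent.Results.MP_6cbd0e_co.SmallMaximalSumFree
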